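import Pool.Agent.V1115.SC.Defs

set_option linter.unusedSectionVars false

open scoped BigOperators Classical

noncomputable section

namespace Pool.Agent.V1115.SC

variable {n : ℕ} {F : Type} [Field F]

/-- the element `1 + N` of `U` -/
def mkU (N : nil n F) : U n F :=
  ⟨Matrix.GeneralLinearGroup.mkOfDetNeZero (1 + N.1) (by
    have h : (1 + N.1 : Matrix (Fin n) (Fin n) F).IsUpperTriangular := by
      intro i j h
      have h' : j < i := h
      rw [Matrix.add_apply, N.2 i j h'.le, Matrix.one_apply_ne (ne_of_gt h'), add_zero]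
    rw [Matrix.det_of_isUpperTriangular h]
    refine Finset.prod_ne_zero_iff.mpr fun i _ => ?_
    rw [Matrix.add_apply, N.2 i i le_rfl, Matrix.one_apply_eq, add_zero]
    exact one_ne_zero), by
    show (1 + N.1 : Matrix (Fin n) (Fin n) F) - 1 ∈ nil n F
    rw [add_sub_cancel_left]
    exact N.2⟩

lemma mkU_coe (N : nil n F) :
    ((mkU N).1 : Matrix (Fin n) (Fin n) F) = 1 + N.1 := rfl

lemma U_diag (u : U n F) (i : Fin n) : (u.1 : Matrix (Fin n) (Fin n) F) i i = 1 := by
  have h := u.2 i i le_rfl
  rw [Matrix.sub_apply, Matrix.one_apply_eq] at h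
  exact sub_eq_zero.mp h

lemma U_low (u : U n F) {i j : Fin n} (h : j < i) : (u.1 : Matrix (Fin n) (Fin n) F) i j = 0 := by
  have h1 := u.2 i j h.le
  rwa [Matrix.sub_apply, Matrix.one_apply_ne (ne_of_gt h), sub_zero] at h1

lemma bimod_coe (u v : U n F) (y : nil n F) :
    (bimod u v y).1 = (u.1 : Matrix (Fin n) (Fin n) F) * y.1 * (v.1 : Matrix (Fin n) (Fin n) F) :=
  rfl

lemma bimod_bimod (u v u' v' : U n F) (y : nil n F) :
    bimod u v (bimod u' v' y) = bimod (u * u') (v' * v) y := by
  apply Subtype.ext
  simp only [bimod_coe, Subgroup.coe_mul, Units.val_mul]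
  simp only [Matrix.mul_assoc]

lemma bimod_one (y : nil n F) : bimod 1 1 y = y := by
  apply Subtype.ext
  simp only [bimod_coe, Subgroup.coe_one, Units.val_one]
  simp

lemma bimod_add (u v : U n F) (y z : nil n F) : bimod u v (y + z) = bimod u v y + bimod u v z := by
  apply Subtype.ext
  simp only [bimod_coe, Submodule.coe_add]
  rw [Matrix.mul_add, Matrix.add_mul]

lemma bimod_smul (u v : U n F) (c : F) (y : nil n F) : bimod u v (c • y) = c • bimod u v y := by
  apply Subtype.ext
  simp only [bimod_coe, Submodule.coe_smul]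
  rw [Matrix.mul_smul, Matrix.smul_mul]

/-- the functional `y ↦ μ(u y v)` -/
def act (u v : U n F) (μ : Module.Dual F (nil n F)) : Module.Dual F (nil n F) where
  toFun y := μ (bimod u v y)
  map_add' y z := by rw [bimod_add, map_add]
  map_smul' c y := by rw [bimod_smul, map_smul, RingHom.id_apply]

lemma act_apply (u v : U n F) (μ : Module.Dual F (nil n F)) (y : nil n F) :
    act u v μ y = μ (bimod u v y) := rfl

lemma act_mem {u v : U n F} {l μ : Module.Dual F (nil n F)} (h : μ ∈ orbit l) :
    act u v μ ∈ orbit l := by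
  obtain ⟨a, b, hab⟩ := h
  refine ⟨a * u, v * b, fun y => ?_⟩
  rw [act_apply, hab, bimod_bimod]

lemma act_act (u v u' v' : U n F) (μ : Module.Dual F (nil n F)) :
    act u v (act u' v' μ) = act (u' * u) (v * v') μ := by
  ext y
  rw [act_apply, act_apply, bimod_bimod, act_apply]

lemma act_one (μ : Module.Dual F (nil n F)) : act 1 1 μ = μ := by
  ext y
  rw [act_apply, bimod_one]

lemma self_mem_orbit (l : Module.Dual F (nil n F)) : l ∈ orbit l :=
  ⟨1, 1, fun y => by rw [bimod_one]⟩

section Finite

variable [Finite F]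

instance : Finite (nil n F) := by
  have : Finite (Matrix (Fin n) (Fin n) F) := inferInstanceAs (Finite (Fin n → Fin n → F))
  exact Subtype.finite

instance : Finite (Module.Dual F (nil n F)) := by
  exact DFunLike.finite (Module.Dual F (nil n F))

/-- the orbit sum as a function on `𝔫` -/
def S (θ : AddChar F ℂ) (l : Module.Dual F (nil n F)) (y : nil n F) : ℂ :=
  ∑ μ ∈ (Set.toFinite (orbit l)).toFinset, θ (μ y)

lemma orbitSum_eq (θ : AddChar F ℂ) (l : Module.Dual F (nil n F)) (g : U n F) :
    orbitSum θ l g = S θ l ⟨(g.1 : Matrix (Fin n) (Fin n) F) - 1, g.2⟩ := by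
  unfold orbitSum S
  rw [finsum_mem_eq_finite_toFinset_sum _ (Set.toFinite (orbit l))]

lemma S_bimod (θ : AddChar F ℂ) (l : Module.Dual F (nil n F)) (u v : U n F) (y : nil n F) :
    S θ l (bimod u v y) = S θ l y := by
  unfold S
  refine Finset.sum_nbij' (fun μ => act u v μ) (fun μ => act u⁻¹ v⁻¹ μ) ?_ ?_ ?_ ?_ ?_
  · intro μ hμ
    rw [Set.Finite.mem_toFinset] at hμ ⊢
    exact act_mem hμ
  · intro μ hμ
    rw [Set.Finite.mem_toFinset] at hμ ⊢
    exact act_mem hμ
  · intro μ _
    show act u⁻¹ v⁻¹ (act u v μ) = μ
    rw [act_act, mul_inv_cancel, inv_mul_cancel, act_one]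
  · intro μ _
    show act u v (act u⁻¹ v⁻¹ μ) = μ
    rw [act_act, inv_mul_cancel, mul_inv_cancel, act_one]
  · intro μ _
    rw [act_apply]

/-- value of a member of the orbit of a box functional -/
lemma orbit_box {i j : Fin n} {a : F} {μ : Module.Dual F (nil n F)} (h : μ ∈ orbit (box i j a)) :
    ∃ u v : U n F, ∀ y, μ y = a * (bimod u v y).1 i j := by
  obtain ⟨u, v, huv⟩ := h
  exact ⟨u, v, huv⟩

/-- `y N` for `y, N ∈ 𝔫` -/
def mulN (y N : nil n F) : nil n F := ⟨y.1 * N.1, nil_mul y.2 N.2⟩

/-- positivity: the orbit sum of a box functional does not vanish at matrices supported strictly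
inside the box -/
lemma S_inner_ne (θ : AddChar F ℂ) {i j : Fin n} (a : F) (y : nil n F)
    (hrow : ∀ l, y.1 i l = 0) (hcol : ∀ k, y.1 k j = 0) : S θ (box i j a) y ≠ 0 := by
  let _ : Fintype (nil n F) := Fintype.ofFinite _
  set O := (Set.toFinite (orbit (box i j a))).toFinset with hO
  -- the additive character `N ↦ θ(μ(y N))`
  let ψ : Module.Dual F (nil n F) → AddChar (nil n F) ℂ := fun μ =>
    { toFun := fun N => θ (μ (mulN y N))
      map_zero_eq_one' := by
        have : mulN y 0 = 0 := by
          apply Subtype.ext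
          show y.1 * (0 : Matrix (Fin n) (Fin n) F) = 0
          rw [Matrix.mul_zero]
        rw [this, map_zero, AddChar.map_zero_eq_one]
      map_add_eq_mul' := by
        intro N N'
        have : mulN y (N + N') = mulN y N + mulN y N' := by
          apply Subtype.ext
          show y.1 * (N.1 + N'.1) = y.1 * N.1 + y.1 * N'.1
          rw [Matrix.mul_add]
        rw [this, map_add, AddChar.map_add_eq_mul] }
  have hψ : ∀ μ N, ψ μ N = θ (μ (mulN y N)) := fun _ _ => rfl
  have e1 : ∀ N : nil n F, bimod 1 (mkU N) y = y + mulN y N := by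
    intro N
    apply Subtype.ext
    rw [bimod_coe, mkU_coe, Submodule.coe_add]
    show ((1 : U n F).1 : Matrix (Fin n) (Fin n) F) * y.1 * (1 + N.1) = y.1 + y.1 * N.1
    rw [Subgroup.coe_one, Units.val_one, Matrix.one_mul, Matrix.mul_add, Matrix.mul_one]
  have e2 : (Fintype.card (nil n F) : ℂ) * S θ (box i j a) y =
      ∑ μ ∈ O, θ (μ y) * ∑ N : nil n F, ψ μ N := by
    have h1 : (Fintype.card (nil n F) : ℂ) * S θ (box i j a) y =
        ∑ N : nil n F, S θ (box i j a) (bimod 1 (mkU N) y) := by
      rw [Finset.sum_congr rfl (fun N _ => S_bimod θ (box i j a) 1 (mkU N) y),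
        Finset.sum_const, Finset.card_univ, nsmul_eq_mul]
    rw [h1]
    unfold S
    rw [Finset.sum_comm]
    refine Finset.sum_congr rfl fun μ _ => ?_
    rw [Finset.mul_sum]
    refine Finset.sum_congr rfl fun N _ => ?_
    rw [e1, map_add, AddChar.map_add_eq_mul, hψ]
  -- terms with trivial `ψ μ` have `θ (μ y) = 1`
  have e3 : ∀ μ ∈ O, θ (μ y) * ∑ N : nil n F, ψ μ N =
      if ψ μ = 0 then (Fintype.card (nil n F) : ℂ) else 0 := by
    intro μ hμ
    rw [AddChar.sum_eq_ite]
    by_cases h : ψ μ = 0
    · rw [if_pos h]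
      rw [hO, Set.Finite.mem_toFinset] at hμ
      obtain ⟨u, v, huv⟩ := orbit_box hμ
      -- choose `N = 1 - v⁻¹`
      have hv := (v⁻¹).2
      set N : nil n F := -⟨((v⁻¹).1 : Matrix (Fin n) (Fin n) F) - 1, hv⟩ with hN
      have hNv : N.1 = 1 - ((v⁻¹).1 : Matrix (Fin n) (Fin n) F) := by
        rw [hN]
        show -(((v⁻¹).1 : Matrix (Fin n) (Fin n) F) - 1) = _
        rw [neg_sub]
      have h1 : ψ μ N = 1 := by rw [h]; rfl
      have h2 : μ (mulN y N) = μ y := by
        rw [huv, huv]
        congr 1
        have h3 : (bimod u v (mulN y N)).1 =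
            (u.1 : Matrix (Fin n) (Fin n) F) * y.1 * (v.1 : Matrix (Fin n) (Fin n) F) -
              (u.1 : Matrix (Fin n) (Fin n) F) * y.1 := by
          rw [bimod_coe]
          show (u.1 : Matrix (Fin n) (Fin n) F) * (y.1 * N.1) *
            (v.1 : Matrix (Fin n) (Fin n) F) = _
          rw [hNv]
          have h4 : ((v⁻¹).1 : Matrix (Fin n) (Fin n) F) * (v.1 : Matrix (Fin n) (Fin n) F) = 1 := by
            rw [← Units.val_mul, ← Subgroup.coe_mul, inv_mul_cancel, Subgroup.coe_one,
              Units.val_one]
          have h5 : (u.1 : Matrix (Fin n) (Fin n) F) * (y.1 * (1 - ((v⁻¹).1 : Matrix _ _ F))) *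
              (v.1 : Matrix (Fin n) (Fin n) F) =
              (u.1 : Matrix (Fin n) (Fin n) F) * y.1 * (v.1 : Matrix _ _ F) -
              (u.1 : Matrix (Fin n) (Fin n) F) * y.1 *
                (((v⁻¹).1 : Matrix _ _ F) * (v.1 : Matrix _ _ F)) := by
            simp only [Matrix.mul_sub, Matrix.sub_mul, Matrix.mul_assoc, Matrix.mul_one]
          rw [h5, h4, Matrix.mul_one]
        rw [h3, Matrix.sub_apply, bimod_coe]
        have h6 : ((u.1 : Matrix (Fin n) (Fin n) F) * y.1) i j = 0 := by
          rw [Matrix.mul_apply]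
          exact Finset.sum_eq_zero fun k _ => by rw [hcol k, mul_zero]
        rw [h6, sub_zero]
      rw [hψ, h2] at h1
      rw [h1, one_mul]
    · rw [if_neg h, mul_zero]
  rw [Finset.sum_congr rfl e3, ← Finset.sum_filter, Finset.sum_const, nsmul_eq_mul] at e2
  have hc : (Fintype.card (nil n F) : ℂ) ≠ 0 := by
    exact_mod_cast Fintype.card_ne_zero
  have hb : box i j a ∈ O.filter (fun μ => ψ μ = 0) := by
    rw [Finset.mem_filter]
    refine ⟨?_, ?_⟩
    · rw [hO, Set.Finite.mem_toFinset]
      exact self_mem_orbit _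
    · ext N
      rw [hψ]
      have h1 : box i j a (mulN y N) = 0 := by
        show a * (y.1 * N.1) i j = 0
        rw [Matrix.mul_apply, Finset.sum_eq_zero, mul_zero]
        intro k _
        rw [hrow k, zero_mul]
      rw [h1, AddChar.map_zero_eq_one]
      rfl
  have hcard : ((O.filter (fun μ => ψ μ = 0)).card : ℂ) ≠ 0 := by
    exact_mod_cast (Finset.card_pos.mpr ⟨_, hb⟩).ne'
  intro h0
  rw [h0, mul_zero] at e2
  exact (mul_ne_zero hcard hc) e2.symm

/-- the part of `y` strictly inside the box `(i,j)` -/
def inner (i j : Fin n) (y : nil n F) : nil n F :=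
  ⟨Matrix.of fun k l => if i < k ∧ l < j then y.1 k l else 0, by
    intro k l h
    rw [Matrix.of_apply]
    split_ifs
    · exact y.2 k l h
    · rfl⟩

lemma inner_apply (i j : Fin n) (y : nil n F) (k l : Fin n) :
    (inner i j y).1 k l = if i < k ∧ l < j then y.1 k l else 0 := rfl

lemma bimod_inner {i j : Fin n} (y : nil n F) (hrow : ∀ l, l < j → y.1 i l = 0)
    (hcol : ∀ k, i < k → y.1 k j = 0) (u v : U n F) :
    (bimod u v y).1 i j = y.1 i j + (bimod u v (inner i j y)).1 i j := by
  have h1 : (bimod u v y).1 i j - (bimod u v (inner i j y)).1 i j = y.1 i j := by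
    have h2 : (bimod u v y).1 - (bimod u v (inner i j y)).1 =
        (u.1 : Matrix (Fin n) (Fin n) F) * (y.1 - (inner i j y).1) *
          (v.1 : Matrix (Fin n) (Fin n) F) := by
      rw [bimod_coe, bimod_coe, Matrix.mul_sub, Matrix.sub_mul]
    rw [← Matrix.sub_apply, h2, Matrix.mul_apply, Finset.sum_eq_single j]
    · rw [U_diag, mul_one, Matrix.mul_apply, Finset.sum_eq_single i]
      · rw [U_diag, one_mul, Matrix.sub_apply, inner_apply, if_neg (by simp), sub_zero]
      · intro k _ hk
        rcases lt_or_gt_of_ne hk with h | h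
        · rw [U_low u h, zero_mul]
        · rw [Matrix.sub_apply, inner_apply, if_neg (by simp), hcol k h, sub_zero, mul_zero]
      · intro h
        exact absurd (Finset.mem_univ i) h
    · intro l _ hl
      rcases lt_or_gt_of_ne hl with h | h
      · rw [Matrix.mul_apply, Finset.sum_eq_zero, zero_mul]
        intro k _
        rcases lt_trichotomy k i with h' | h' | h'
        · rw [U_low u h', zero_mul]
        · subst h'
          rw [Matrix.sub_apply, inner_apply, if_neg (by simp), hrow l h, sub_zero, mul_zero]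
        · rw [Matrix.sub_apply, inner_apply, if_pos ⟨h', h⟩, sub_self, mul_zero]
      · rw [U_low v h, mul_zero]
    · intro h
      exact absurd (Finset.mem_univ j) h
  rw [← h1]
  ring

lemma S_split (θ : AddChar F ℂ) {i j : Fin n} (a : F) (y : nil n F)
    (hrow : ∀ l, l < j → y.1 i l = 0) (hcol : ∀ k, i < k → y.1 k j = 0) :
    S θ (box i j a) y = θ (a * y.1 i j) * S θ (box i j a) (inner i j y) := by
  unfold S
  rw [Finset.mul_sum]
  refine Finset.sum_congr rfl fun μ hμ => ?_
  rw [Set.Finite.mem_toFinset] at hμ
  obtain ⟨u, v, huv⟩ := orbit_box hμ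
  rw [huv, huv, bimod_inner y hrow hcol, mul_add, AddChar.map_add_eq_mul]

/-- at most one nonzero entry in each row and in each column -/
def Mono (y : nil n F) : Prop :=
  (∀ i j j', y.1 i j ≠ 0 → y.1 i j' ≠ 0 → j = j') ∧ (∀ i i' j, y.1 i j ≠ 0 → y.1 i' j ≠ 0 → i = i')

theorem mono_eq (θ : AddChar F ℂ) (hθ : θ ≠ 1) {y z : nil n F} (hy : Mono y) (hz : Mono z)
    (h : ∀ i j : Fin n, i < j → ∀ a : F, a ≠ 0 → S θ (box i j a) y = S θ (box i j a) z) :
    y = z := by
  have key : ∀ m : ℕ, ∀ i j : Fin n, i < j → j.val - i.val < m → y.1 i j = z.1 i j := by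
    intro m
    induction m with
    | zero => intro i j _ h; omega
    | succ m ih =>
      intro i j hij hm
      by_cases hA : (∃ l, l < j ∧ y.1 i l ≠ 0) ∨ (∃ k, i < k ∧ y.1 k j ≠ 0)
      · rcases hA with ⟨l, hl, hl0⟩ | ⟨k, hk, hk0⟩
        · have hil : i < l := by
            by_contra hc
            exact hl0 (y.2 i l (not_lt.mp hc))
          have h1 : y.1 i l = z.1 i l := ih i l hil (by
            have h2 : l.val < j.val := hl
            have h3 : i.val < l.val := hil
            omega)
          have h2 : y.1 i j = 0 := by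
            by_contra hc
            exact absurd (hy.1 i l j hl0 hc) (ne_of_lt hl)
          have h3 : z.1 i j = 0 := by
            by_contra hc
            exact absurd (hz.1 i l j (h1 ▸ hl0) hc) (ne_of_lt hl)
          rw [h2, h3]
        · have hkj : k < j := by
            by_contra hc
            exact hk0 (y.2 k j (not_lt.mp hc))
          have h1 : y.1 k j = z.1 k j := ih k j hkj (by
            have h2 : i.val < k.val := hk
            have h3 : k.val < j.val := hkj
            omega)
          have h2 : y.1 i j = 0 := by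
            by_contra hc
            exact absurd (hy.2 k i j hk0 hc) (ne_of_gt hk)
          have h3 : z.1 i j = 0 := by
            by_contra hc
            exact absurd (hz.2 k i j (h1 ▸ hk0) hc) (ne_of_gt hk)
          rw [h2, h3]
      · push Not at hA
        have hA2 : ∀ l, l < j → z.1 i l = 0 := by
          intro l hl
          by_cases hil : i < l
          · rw [← ih i l hil (by
              have h2 : l.val < j.val := hl
              have h3 : i.val < l.val := hil
              omega)]
            exact hA.1 l hl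
          · exact z.2 i l (not_lt.mp hil)
        have hA3 : ∀ k, i < k → z.1 k j = 0 := by
          intro k hk
          by_cases hkj : k < j
          · rw [← ih k j hkj (by
              have h2 : i.val < k.val := hk
              have h3 : k.val < j.val := hkj
              omega)]
            exact hA.2 k hk
          · exact z.2 k j (not_lt.mp hkj)
        have hin : inner i j y = inner i j z := by
          apply Subtype.ext
          ext k l
          rw [inner_apply, inner_apply]
          by_cases hkl : i < k ∧ l < j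
          · rw [if_pos hkl, if_pos hkl]
            by_cases hkl' : k < l
            · refine ih k l hkl' ?_
              have h2 : i.val < k.val := hkl.1
              have h3 : l.val < j.val := hkl.2
              have h4 : k.val < l.val := hkl'
              omega
            · rw [y.2 k l (not_lt.mp hkl'), z.2 k l (not_lt.mp hkl')]
          · rw [if_neg hkl, if_neg hkl]
        have hne : ∀ a : F, S θ (box i j a) (inner i j y) ≠ 0 := fun a =>
          S_inner_ne θ a (inner i j y) (fun l => by rw [inner_apply, if_neg (by simp)])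
            (fun k => by rw [inner_apply, if_neg (by simp)])
        have hval : ∀ a : F, θ (a * y.1 i j) = θ (a * z.1 i j) := by
          intro a
          by_cases ha : a = 0
          · rw [ha, zero_mul, zero_mul]
          · have h1 := h i j hij a ha
            rw [S_split θ a y hA.1 hA.2, S_split θ a z hA2 hA3, ← hin] at h1
            exact mul_right_cancel₀ (hne a) h1
        by_contra hc
        apply hθ
        ext c
        have hd : y.1 i j - z.1 i j ≠ 0 := sub_ne_zero.mpr hc
        have h1 := hval (c / (y.1 i j - z.1 i j))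
        have h2 : c = c / (y.1 i j - z.1 i j) * y.1 i j - c / (y.1 i j - z.1 i j) * z.1 i j := by
          rw [← mul_sub, div_mul_cancel₀ _ hd]
        rw [AddChar.one_apply, h2, AddChar.map_sub_eq_div, h1, div_self]
        intro h0
        have h3 := AddChar.map_add_eq_mul θ (c / (y.1 i j - z.1 i j) * z.1 i j)
          (-(c / (y.1 i j - z.1 i j) * z.1 i j))
        rw [h0, zero_mul, add_neg_cancel, AddChar.map_zero_eq_one] at h3
        exact one_ne_zero h3
  apply Subtype.ext
  ext i j
  by_cases hij : i < j
  · exact key _ i j hij (Nat.lt_succ_self _)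
  · rw [y.2 i j (not_lt.mp hij), z.2 i j (not_lt.mp hij)]

end Finite

end Pool.Agent.V1115.SC
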