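import Mathlib

/-!
# Supercharacter theories and André's superclasses of the unitriangular groups
-/

open scoped BigOperators Classical

noncomputable section

namespace Pool.Agent.V1115.SC

/-- `χ` is the character of an irreducible finite-dimensional complex representation of `G`. -/
def IsIrr {G : Type} [Group G] (χ : G → ℂ) : Prop :=
  ∃ (V : Type) (_ : AddCommGroup V) (_ : Module ℂ V) (_ : FiniteDimensional ℂ V)
    (ρ : Representation ℂ G V), ρ.IsIrreducible ∧ χ = ρ.character

/-- A supercharacter theory of the finite group `G` (Diaconis–Isaacs): `X` is a partition of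
`Irr(G)`, `K` is a partition of `G`, `|X| = |K|`, `{1} ∈ K`, and for each `A ∈ X` the character
`σ_A = ∑_{ψ ∈ A} ψ(1) ψ` is constant on every member of `K`. -/
structure IsSupercharacterTheory {G : Type} [Group G] (X : Set (Set (G → ℂ))) (K : Set (Set G)) :
    Prop where
  /-- the members of `X` are non-empty sets of irreducible characters -/
  X_sub : ∀ A ∈ X, A.Nonempty ∧ ∀ ψ ∈ A, IsIrr ψ
  /-- every irreducible character lies in exactly one member of `X` -/
  X_part : ∀ ψ : G → ℂ, IsIrr ψ → ∃! A, A ∈ X ∧ ψ ∈ A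
  /-- `K` is a partition of `G` (into non-empty sets) -/
  K_part : Setoid.IsPartition K
  /-- `|X| = |K|` -/
  card_eq : Nat.card X = Nat.card K
  /-- `{1}` is a superclass -/
  one_mem : {(1 : G)} ∈ K
  /-- the supercharacters are constant on superclasses -/
  const : ∀ A ∈ X, ∀ C ∈ K, ∀ g ∈ C, ∀ h ∈ C,
    ∑ᶠ ψ ∈ A, ψ 1 * ψ g = ∑ᶠ ψ ∈ A, ψ 1 * ψ h

variable (n : ℕ) (F : Type) [Field F]

/-- The strictly upper triangular matrices `𝔫`. -/
def nil : Submodule F (Matrix (Fin n) (Fin n) F) where
  carrier := {y | ∀ i j, j ≤ i → y i j = 0}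
  add_mem' := by
    intro a b ha hb i j h
    rw [Matrix.add_apply, ha i j h, hb i j h, add_zero]
  zero_mem' := fun i j _ => rfl
  smul_mem' := by
    intro c a ha i j h
    rw [Matrix.smul_apply, ha i j h, smul_zero]

variable {n F}

lemma mem_nil {y : Matrix (Fin n) (Fin n) F} : y ∈ nil n F ↔ ∀ i j, j ≤ i → y i j = 0 := Iff.rfl

lemma nil_mul {a b : Matrix (Fin n) (Fin n) F} (ha : a ∈ nil n F) (hb : b ∈ nil n F) :
    a * b ∈ nil n F := by
  intro i j h
  rw [Matrix.mul_apply]
  refine Finset.sum_eq_zero fun k _ => ?_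
  by_cases hk : k ≤ i
  · rw [ha i k hk, zero_mul]
  · rw [hb k j (h.trans (le_of_not_ge hk)), mul_zero]

variable (n F)

/-- The group `U_n(F)` of upper unitriangular matrices, as a subgroup of `GL_n(F)`. -/
def U : Subgroup (GL (Fin n) F) where
  carrier := {g | (g : Matrix (Fin n) (Fin n) F) - 1 ∈ nil n F}
  mul_mem' := by
    intro a b ha hb
    have h : ((a * b : GL (Fin n) F) : Matrix (Fin n) (Fin n) F) - 1 =
        (a.1 - 1) * (b.1 - 1) + (a.1 - 1) + (b.1 - 1) := by
      rw [Units.val_mul]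
      noncomm_ring
    show ((a * b : GL (Fin n) F) : Matrix (Fin n) (Fin n) F) - 1 ∈ nil n F
    rw [h]
    exact add_mem (add_mem (nil_mul ha hb) ha) hb
  one_mem' := by
    show ((1 : GL (Fin n) F) : Matrix (Fin n) (Fin n) F) - 1 ∈ nil n F
    rw [Units.val_one, sub_self]
    exact zero_mem _
  inv_mem' := by
    intro a ha
    have ha' : (a : Matrix (Fin n) (Fin n) F) - 1 ∈ nil n F := ha
    show ((a⁻¹ : GL (Fin n) F) : Matrix (Fin n) (Fin n) F) - 1 ∈ nil n F
    have h1 : ((a⁻¹ : GL (Fin n) F) : Matrix (Fin n) (Fin n) F) * (a : Matrix _ _ F) = 1 := by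
      rw [← Units.val_mul, inv_mul_cancel, Units.val_one]
    set X := ((a⁻¹ : GL (Fin n) F) : Matrix (Fin n) (Fin n) F) with hX
    set N := (a : Matrix (Fin n) (Fin n) F) - 1 with hN
    have h2 : X - 1 = - (X * N) := by
      rw [hN, mul_sub, h1, mul_one]
      abel
    have key : ∀ m : ℕ, ∀ j : Fin n, j.val < m → ∀ i, j ≤ i → (X - 1) i j = 0 := by
      intro m
      induction m with
      | zero => intro j hj; omega
      | succ m ih =>
        intro j hj i hji
        rw [h2, Matrix.neg_apply, Matrix.mul_apply, neg_eq_zero]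
        refine Finset.sum_eq_zero fun k _ => ?_
        by_cases hk : j ≤ k
        · rw [ha' k j hk, mul_zero]
        · have hk' : k < j := not_le.mp hk
          have h3 := ih k (by omega) i (hk'.le.trans hji)
          have hne : i ≠ k := by
            intro h
            rw [← h] at hk'
            exact absurd hji (not_le.mpr hk')
          rw [Matrix.sub_apply, Matrix.one_apply_ne hne, sub_zero] at h3
          rw [h3, zero_mul]
    intro i j h
    exact key (j.val + 1) j (Nat.lt_succ_self _) i h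

variable {n F}

lemma U_sub_one_mem (g : U n F) : (g.1 : Matrix (Fin n) (Fin n) F) - 1 ∈ nil n F := g.2

/-- The two-sided action `y ↦ u y v` of `U` on `𝔫`. -/
def bimod (u v : U n F) (y : nil n F) : nil n F :=
  ⟨(u.1 : Matrix (Fin n) (Fin n) F) * y.1 * (v.1 : Matrix (Fin n) (Fin n) F), by
    have h : (u.1 : Matrix (Fin n) (Fin n) F) * y.1 * (v.1 : Matrix (Fin n) (Fin n) F) =
        (u.1.1 - 1) * y.1 * (v.1.1 - 1) + (u.1.1 - 1) * y.1 + y.1 * (v.1.1 - 1) + y.1 := by
      noncomm_ring
    rw [h]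
    exact add_mem (add_mem (add_mem (nil_mul (nil_mul u.2 y.2) v.2) (nil_mul u.2 y.2))
      (nil_mul y.2 v.2)) y.2⟩

/-- The two-sided orbit `U λ U` of the functional `λ ∈ 𝔫*`, where `(u μ v)(y) = μ(u y v)`. -/
def orbit (l : Module.Dual F (nil n F)) : Set (Module.Dual F (nil n F)) :=
  {μ | ∃ u v : U n F, ∀ y, μ y = l (bimod u v y)}

/-- The function `g ↦ ∑_{μ ∈ UλU} θ(μ(g - 1))` on `U`; André's supercharacter attached to the
orbit of `λ` is a positive scalar multiple of it. -/
def orbitSum (θ : AddChar F ℂ) (l : Module.Dual F (nil n F)) (g : U n F) : ℂ :=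
  ∑ᶠ μ ∈ orbit l, θ (μ ⟨(g.1 : Matrix (Fin n) (Fin n) F) - 1, g.2⟩)

/-- The single box functional `λ_{ij,a} : y ↦ a y_{ij}`. -/
def box (i j : Fin n) (a : F) : Module.Dual F (nil n F) where
  toFun y := a * y.1 i j
  map_add' y z := by
    rw [Submodule.coe_add, Matrix.add_apply, mul_add]
  map_smul' c y := by
    rw [Submodule.coe_smul, Matrix.smul_apply, smul_eq_mul, RingHom.id_apply, smul_eq_mul]
    ring

/-- André's superclass of `x`: the set of `g ∈ U` with `g - 1 ∈ U (x - 1) U`. -/
def superclass (x : U n F) : Set (U n F) :=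
  {g | ∃ u v : U n F, (g.1 : Matrix (Fin n) (Fin n) F) - 1 =
    (u.1 : Matrix (Fin n) (Fin n) F) * ((x.1 : Matrix (Fin n) (Fin n) F) - 1) *
      (v.1 : Matrix (Fin n) (Fin n) F)}

end Pool.Agent.V1115.SC
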