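import Pool.Agent.V1115.SC.Core

set_option linter.unusedSectionVars false

open scoped BigOperators Classical

noncomputable section

namespace Pool.Agent.V1115.SC

variable {n : ℕ} {F : Type} [Field F]

/-- rows `i ≥ r` are done -/
def Done (r : ℕ) (M : Matrix (Fin n) (Fin n) F) : Prop :=
  ∀ i : Fin n, r ≤ i.val → ∀ j, M i j ≠ 0 → (∀ j', j' ≠ j → M i j' = 0) ∧
    (∀ i', i' ≠ i → M i' j = 0)

lemma done_step {r : ℕ} (hr : r < n) (M : Matrix (Fin n) (Fin n) F) (h : Done (r + 1) M) :
    ∃ a b : nil n F, Done r ((1 + a.1) * M * (1 + b.1)) := by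
  set R : Fin n := ⟨r, hr⟩ with hR
  by_cases hrow : ∀ j, M R j = 0
  · refine ⟨0, 0, ?_⟩
    simp only [Submodule.coe_zero, add_zero, Matrix.one_mul, Matrix.mul_one]
    intro i hi j hij
    rcases Nat.lt_or_ge r i.val with h1 | h1
    · exact h i h1 j hij
    · have : i = R := Fin.ext (le_antisymm h1 hi)
      rw [this] at hij
      exact absurd (hrow j) hij
  push Not at hrow
  -- leftmost non-zero entry of row `r`
  obtain ⟨c, hc, hcmin⟩ : ∃ c : Fin n, M R c ≠ 0 ∧ ∀ j, j < c → M R j = 0 := by
    have hne : (Finset.univ.filter (fun j => M R j ≠ 0)).Nonempty := by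
      obtain ⟨j, hj⟩ := hrow
      exact ⟨j, by simp [hj]⟩
    refine ⟨(Finset.univ.filter (fun j => M R j ≠ 0)).min' hne, ?_, ?_⟩
    · have := Finset.min'_mem _ hne
      exact (Finset.mem_filter.mp this).2
    · intro j hj
      by_contra h0
      have hj1 : j ∈ Finset.univ.filter (fun j => M R j ≠ 0) := by
        simp [h0]
      have := Finset.min'_le _ j hj1
      exact absurd hj (not_lt.mpr this)
  have hcol : ∀ i : Fin n, r < i.val → M i c = 0 := by
    intro i hi
    by_contra h0
    have h1 := (h i hi c h0).2 R (by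
      intro hh
      rw [← hh] at hi
      exact absurd hi (lt_irrefl _))
    exact hc h1
  -- `a` clears the entries above, `b` the entries to the right
  let a : nil n F := ⟨Matrix.of fun i k => if i < R ∧ k = R then -(M i c / M R c) else 0, by
    intro i k hk
    rw [Matrix.of_apply, if_neg]
    rintro ⟨h1, h2⟩
    rw [h2] at hk
    exact absurd h1 (not_lt.mpr hk)⟩
  let b : nil n F := ⟨Matrix.of fun k j => if k = c ∧ c < j then -(M R j / M R c) else 0, by
    intro k j hk
    rw [Matrix.of_apply, if_neg]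
    rintro ⟨h1, h2⟩
    rw [h1] at hk
    exact absurd h2 (not_lt.mpr hk)⟩
  have ha : ∀ i j, ((1 + a.1) * M) i j =
      M i j + (if i < R then -(M i c / M R c) * M R j else 0) := by
    intro i j
    rw [Matrix.add_mul, Matrix.one_mul, Matrix.add_apply, Matrix.mul_apply,
      Finset.sum_eq_single R]
    · congr 1
      show (if i < R ∧ R = R then -(M i c / M R c) else 0) * M R j = _
      by_cases h1 : i < R
      · rw [if_pos ⟨h1, rfl⟩, if_pos h1]
      · rw [if_neg (fun h => h1 h.1), if_neg h1, zero_mul]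
    · intro k _ hk
      show (if i < R ∧ k = R then -(M i c / M R c) else 0) * M k j = 0
      rw [if_neg (fun h => hk h.2), zero_mul]
    · intro h1
      exact absurd (Finset.mem_univ R) h1
  set M1 := (1 + a.1) * M with hM1
  have hM1c : ∀ i, i ≠ R → M1 i c = 0 := by
    intro i hi
    rw [ha]
    rcases lt_or_gt_of_ne hi with h1 | h1
    · rw [if_pos h1, neg_mul, div_mul_cancel₀ _ hc, add_neg_cancel]
    · rw [if_neg (not_lt.mpr (le_of_lt h1)), add_zero]
      exact hcol i h1
  have hM1R : ∀ j, M1 R j = M R j := by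
    intro j
    rw [ha, if_neg (lt_irrefl R), add_zero]
  have hb : ∀ i j, (M1 * (1 + b.1)) i j =
      M1 i j + (if c < j then -(M R j / M R c) * M1 i c else 0) := by
    intro i j
    rw [Matrix.mul_add, Matrix.mul_one, Matrix.add_apply, Matrix.mul_apply,
      Finset.sum_eq_single c]
    · congr 1
      show M1 i c * (if c = c ∧ c < j then -(M R j / M R c) else 0) = _
      by_cases h1 : c < j
      · rw [if_pos ⟨rfl, h1⟩, if_pos h1, mul_comm]
      · rw [if_neg (fun h => h1 h.2), if_neg h1, mul_zero]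
    · intro k _ hk
      show M1 i k * (if k = c ∧ c < j then -(M R j / M R c) else 0) = 0
      rw [if_neg (fun h => hk h.1), mul_zero]
    · intro h1
      exact absurd (Finset.mem_univ c) h1
  refine ⟨a, b, ?_⟩
  have hM2 : ∀ i j, i ≠ R → (M1 * (1 + b.1)) i j = M1 i j := by
    intro i j hi
    rw [hb, hM1c i hi, mul_zero, ite_self, add_zero]
  have hM2R : ∀ j, j ≠ c → (M1 * (1 + b.1)) R j = 0 := by
    intro j hj
    rw [hb, hM1R, hM1R]
    rcases lt_or_gt_of_ne hj with h1 | h1
    · rw [hcmin j h1, if_neg (not_lt.mpr (le_of_lt h1)), add_zero]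
    · rw [if_pos h1, neg_mul, div_mul_cancel₀ _ hc, add_neg_cancel]
  have hM1low : ∀ i j, r < i.val → M1 i j = M i j := by
    intro i j hi
    rw [ha, if_neg, add_zero]
    intro h1
    have : i.val < r := h1
    omega
  intro i hi j hij
  rcases Nat.lt_or_ge r i.val with h1 | h1
  · have hiR : i ≠ R := by
      intro hh
      rw [hh] at h1
      exact absurd h1 (lt_irrefl _)
    rw [hM2 i j hiR, hM1low i j h1] at hij
    obtain ⟨h2, h3⟩ := h i h1 j hij
    have hjc : j ≠ c := by
      intro hh
      rw [hh] at hij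
      exact hij (hcol i h1)
    refine ⟨?_, ?_⟩
    · intro j' hj'
      rw [hM2 i j' hiR, hM1low i j' h1]
      exact h2 j' hj'
    · intro i' hi'
      by_cases hi'R : i' = R
      · rw [hi'R]
        exact hM2R j hjc
      · rw [hM2 i' j hi'R, ha, h3 i' hi', h3 R (Ne.symm hiR), mul_zero, ite_self, add_zero]
  · have hiR : i = R := Fin.ext (le_antisymm h1 hi)
    rw [hiR] at hij
    have hjc : j = c := by
      by_contra hh
      exact hij (hM2R j hh)
    rw [hiR, hjc]
    refine ⟨fun j' hj' => hM2R j' hj', ?_⟩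
    intro i' hi'
    rw [hM2 i' c hi']
    exact hM1c i' hi'

lemma exists_done (y : nil n F) (k : ℕ) (hk : k ≤ n) :
    ∃ u v : U n F, Done (n - k) (bimod u v y).1 := by
  induction k with
  | zero =>
    refine ⟨1, 1, ?_⟩
    intro i hi
    exact absurd i.2 (by omega)
  | succ k ih =>
    obtain ⟨u, v, h⟩ := ih (by omega)
    have h1 : n - k = n - (k + 1) + 1 := by omega
    rw [h1] at h
    obtain ⟨a, b, hab⟩ := done_step (r := n - (k + 1)) (by omega) _ h
    refine ⟨mkU a * u, v * mkU b, ?_⟩
    have h2 : (bimod (mkU a * u) (v * mkU b) y).1 =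
        (1 + a.1) * (bimod u v y).1 * (1 + b.1) := by
      rw [← bimod_bimod, bimod_coe, mkU_coe, mkU_coe]
    rw [h2]
    exact hab

lemma exists_mono (y : nil n F) : ∃ u v : U n F, Mono (bimod u v y) := by
  obtain ⟨u, v, h⟩ := exists_done y n le_rfl
  rw [Nat.sub_self] at h
  refine ⟨u, v, ?_, ?_⟩
  · intro i j j' h1 h2
    by_contra hne
    exact h2 ((h i (Nat.zero_le _) j h1).1 j' (Ne.symm hne))
  · intro i i' j h1 h2
    by_contra hne
    exact h2 ((h i (Nat.zero_le _) j h1).2 i' (Ne.symm hne))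

/-- the orbit sums of the box functionals separate the double cosets -/
theorem separate [Finite F] (θ : AddChar F ℂ) (hθ : θ ≠ 1) {y z : nil n F}
    (h : ∀ i j : Fin n, i < j → ∀ a : F, a ≠ 0 → S θ (box i j a) y = S θ (box i j a) z) :
    ∃ u v : U n F, y = bimod u v z := by
  obtain ⟨u, v, huv⟩ := exists_mono y
  obtain ⟨u', v', huv'⟩ := exists_mono z
  have h1 := mono_eq θ hθ huv huv' (fun i j hij a ha => by
    rw [S_bimod, S_bimod]
    exact h i j hij a ha)
  refine ⟨u⁻¹ * u', v' * v⁻¹, ?_⟩
  rw [← bimod_bimod, ← h1, bimod_bimod, inv_mul_cancel, mul_inv_cancel, bimod_one]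

end Pool.Agent.V1115.SC
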